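import Pool.Agent.W401.SSS.Defs

/-!
# Basic facts on the definitions of the Schur-Siegel-Smyth project
-/

open MeasureTheory Polynomial

namespace Pool.Agent.W401.SSS

theorem map_ne_zero {Q : ℤ[X]} (hQ : Q ≠ 0) : Q.map (Int.castRingHom ℂ) ≠ 0 := by
  intro h
  exact hQ ((Polynomial.map_eq_zero_iff (Int.castRingHom ℂ).injective_int).1 h)

theorem rts_card (Q : ℤ[X]) : Multiset.card (rts Q) = Q.natDegree := by
  unfold rts
  rw [IsAlgClosed.card_roots_eq_natDegree]
  exact Polynomial.natDegree_map_eq_of_injective (Int.castRingHom ℂ).injective_int Q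

theorem mem_rts {Q : ℤ[X]} (hQ : Q ≠ 0) (z : ℂ) : z ∈ rts Q ↔ Polynomial.aeval z Q = 0 := by
  unfold rts
  rw [Polynomial.mem_roots (map_ne_zero hQ), Polynomial.IsRoot, Polynomial.eval_map,
    Polynomial.aeval_def]
  rfl

theorem ev_cast (Q : ℤ[X]) (x : ℝ) : ((ev Q x : ℝ) : ℂ) = Polynomial.aeval (x : ℂ) Q := by
  unfold ev
  have := Polynomial.aeval_algebraMap_apply ℂ x Q
  simpa using this.symm

theorem ev_eq_zero_iff {Q : ℤ[X]} (hQ : Q ≠ 0) (x : ℝ) : ev Q x = 0 ↔ (x : ℂ) ∈ rts Q := by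
  rw [mem_rts hQ, ← ev_cast]
  norm_cast

theorem leadingCoeff_map' (Q : ℤ[X]) :
    (Q.map (Int.castRingHom ℂ)).leadingCoeff = (Q.leadingCoeff : ℂ) := by
  rw [Polynomial.leadingCoeff_map_of_injective (Int.castRingHom ℂ).injective_int]
  simp

theorem aeval_eq_prod (Q : ℤ[X]) (z : ℂ) :
    Polynomial.aeval z Q = (Q.leadingCoeff : ℂ) * ((rts Q).map (fun α => z - α)).prod := by
  have h1 : Polynomial.aeval z Q = (Q.map (Int.castRingHom ℂ)).eval z := by
    rw [Polynomial.eval_map, Polynomial.aeval_def]; rfl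
  have h2 := (IsAlgClosed.splits (Q.map (Int.castRingHom ℂ))).eq_prod_roots
  rw [h1]
  conv_lhs => rw [h2]
  rw [leadingCoeff_map', Polynomial.eval_mul, Polynomial.eval_C, Polynomial.eval_multiset_prod,
    Multiset.map_map]
  congr 3
  ext α
  simp

theorem norm_aeval (Q : ℤ[X]) (z : ℂ) :
    ‖Polynomial.aeval z Q‖ = |(Q.leadingCoeff : ℝ)| * ((rts Q).map (fun α => ‖z - α‖)).prod := by
  rw [aeval_eq_prod, norm_mul]
  congr 1
  · simp
  · have : ∀ s : Multiset ℂ, ‖(s.map (fun α => z - α)).prod‖ = (s.map (fun α => ‖z - α‖)).prod := by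
      intro s
      induction s using Multiset.induction_on with
      | empty => simp
      | cons a s ih => simp [ih]
    exact this _

theorem abs_ev (Q : ℤ[X]) (x : ℝ) :
    |ev Q x| = |(Q.leadingCoeff : ℝ)| * ((rts Q).map (fun α => ‖(x : ℂ) - α‖)).prod := by
  rw [← norm_aeval, ← ev_cast]
  simp

theorem log_prod_map (s : Multiset ℂ) (g : ℂ → ℝ) (hg : ∀ α ∈ s, g α ≠ 0) :
    Real.log ((s.map g).prod) = (s.map (fun α => Real.log (g α))).sum ∧ (s.map g).prod ≠ 0 := by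
  induction s using Multiset.induction_on with
  | empty => simp
  | cons a s ih =>
    have h1 := ih (fun α hα => hg α (Multiset.mem_cons_of_mem hα))
    have h2 := hg a (Multiset.mem_cons_self a s)
    refine ⟨?_, ?_⟩
    · simp only [Multiset.map_cons, Multiset.prod_cons, Multiset.sum_cons]
      rw [Real.log_mul h2 h1.2, h1.1]
    · simp only [Multiset.map_cons, Multiset.prod_cons]
      exact mul_ne_zero h2 h1.2

/-- `log |Q(z)|` as a sum over the roots. -/
theorem log_norm_aeval {Q : ℤ[X]} {z : ℂ} (hz : Polynomial.aeval z Q ≠ 0) :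
    Real.log ‖Polynomial.aeval z Q‖
      = Real.log |(Q.leadingCoeff : ℝ)| + rsum Q (fun α => Real.log ‖z - α‖) := by
  have hQ : Q ≠ 0 := by
    rintro rfl; simp at hz
  have hne : ∀ α ∈ rts Q, ‖z - α‖ ≠ 0 := by
    intro α hα h0
    rw [norm_eq_zero, sub_eq_zero] at h0
    subst h0
    exact hz ((mem_rts hQ z).1 hα)
  have h := log_prod_map (rts Q) (fun α => ‖z - α‖) hne
  rw [norm_aeval, Real.log_mul _ h.2, h.1]
  · rfl
  · simpa using hQ

theorem log_abs_ev {Q : ℤ[X]} {x : ℝ} (hx : ev Q x ≠ 0) :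
    Real.log |ev Q x|
      = Real.log |(Q.leadingCoeff : ℝ)| + rsum Q (fun α => Real.log ‖(x : ℂ) - α‖) := by
  have h : Polynomial.aeval (x : ℂ) Q ≠ 0 := by
    rw [← ev_cast]; exact_mod_cast hx
  rw [← log_norm_aeval h, ← ev_cast]
  simp

theorem Adm.ne_zero {Q : ℤ[X]} (h : Adm Q) : Q ≠ 0 := h.1.ne_zero

theorem Adm.lc_pos {Q : ℤ[X]} (h : Adm Q) : (0 : ℝ) < (Q.leadingCoeff : ℝ) := by
  exact_mod_cast h.2.2

theorem Adm.one_le_lc {Q : ℤ[X]} (h : Adm Q) : (1 : ℝ) ≤ (Q.leadingCoeff : ℝ) := by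
  exact_mod_cast h.2.2

theorem Adm.one_le_deg {Q : ℤ[X]} (h : Adm Q) : (1 : ℝ) ≤ (Q.natDegree : ℝ) := by
  exact_mod_cast h.2.1

theorem Adm.log_lc_nonneg {Q : ℤ[X]} (h : Adm Q) : 0 ≤ Real.log (Q.leadingCoeff : ℝ) :=
  Real.log_nonneg h.one_le_lc

theorem Adm.log_abs_ev {Q : ℤ[X]} (h : Adm Q) {x : ℝ} (hx : ev Q x ≠ 0) :
    Real.log |ev Q x|
      = Real.log (Q.leadingCoeff : ℝ) + rsum Q (fun α => Real.log ‖(x : ℂ) - α‖) := by
  rw [SSS.log_abs_ev hx, abs_of_pos h.lc_pos]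

theorem rsum_const (Q : ℤ[X]) (c : ℝ) : rsum Q (fun _ => c) = Q.natDegree * c := by
  unfold rsum
  rw [Multiset.map_const', Multiset.sum_replicate, rts_card, nsmul_eq_mul]

theorem rsum_add (Q : ℤ[X]) (f g : ℂ → ℝ) :
    rsum Q (fun α => f α + g α) = rsum Q f + rsum Q g := by
  unfold rsum
  exact Multiset.sum_map_add

theorem rsum_mul_left (Q : ℤ[X]) (c : ℝ) (f : ℂ → ℝ) :
    rsum Q (fun α => c * f α) = c * rsum Q f := by
  unfold rsum
  exact Multiset.sum_map_mul_left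

theorem rsum_sub (Q : ℤ[X]) (f g : ℂ → ℝ) :
    rsum Q (fun α => f α - g α) = rsum Q f - rsum Q g := by
  have h := rsum_add Q f (fun α => -1 * g α)
  rw [rsum_mul_left] at h
  have h2 : (fun α => f α + -1 * g α) = (fun α => f α - g α) := by
    ext α; ring
  rw [h2] at h
  rw [h]; ring

theorem rsum_le (Q : ℤ[X]) (f g : ℂ → ℝ) (h : ∀ α ∈ rts Q, f α ≤ g α) : rsum Q f ≤ rsum Q g :=
  Multiset.sum_map_le_sum_map _ _ h

theorem rsum_nonneg (Q : ℤ[X]) (f : ℂ → ℝ) (h : ∀ α ∈ rts Q, 0 ≤ f α) : 0 ≤ rsum Q f := by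
  have := rsum_le Q (fun _ => 0) f h
  rw [rsum_const] at this
  simpa using this

theorem rsum_congr (Q : ℤ[X]) (f g : ℂ → ℝ) (h : ∀ α ∈ rts Q, f α = g α) :
    rsum Q f = rsum Q g :=
  le_antisymm (rsum_le Q f g fun α hα => (h α hα).le) (rsum_le Q g f fun α hα => (h α hα).ge)

theorem wt_eq (Q : ℤ[X]) :
    wt Q = Real.log (Q.leadingCoeff : ℝ) + Q.natDegree + rsum Q (fun α => Real.log (1 + ‖α‖)) := by
  unfold wt
  rw [rsum_add Q (fun _ => 1) (fun α => Real.log (1 + ‖α‖)), rsum_const]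
  ring

theorem rsum_log_nonneg (Q : ℤ[X]) : 0 ≤ rsum Q (fun α => Real.log (1 + ‖α‖)) :=
  rsum_nonneg Q _ fun α _ => Real.log_nonneg (by linarith [norm_nonneg α])

theorem Adm.deg_le_wt {Q : ℤ[X]} (h : Adm Q) : (Q.natDegree : ℝ) ≤ wt Q := by
  rw [wt_eq]
  linarith [h.log_lc_nonneg, rsum_log_nonneg Q]

theorem Adm.one_le_wt {Q : ℤ[X]} (h : Adm Q) : 1 ≤ wt Q := h.one_le_deg.trans h.deg_le_wt

theorem continuous_ev (Q : ℤ[X]) : Continuous (ev Q) := by
  unfold ev
  exact Polynomial.continuous_aeval Q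

theorem measurable_log_ev (Q : ℤ[X]) : Measurable (fun x => Real.log |ev Q x|) :=
  Real.measurable_log.comp ((continuous_ev Q).abs.measurable)

/-- The set of real roots of a nonzero polynomial is finite. -/
theorem finite_roots {Q : ℤ[X]} (hQ : Q ≠ 0) : {x : ℝ | ev Q x = 0}.Finite := by
  have h : (Q.map (Int.castRingHom ℝ)) ≠ 0 := by
    intro h
    exact hQ ((Polynomial.map_eq_zero_iff (Int.castRingHom ℝ).injective_int).1 h)
  refine Set.Finite.subset (Q.map (Int.castRingHom ℝ)).roots.toFinset.finite_toSet ?_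
  intro x hx
  have hx : ev Q x = 0 := hx
  simp only [Multiset.mem_toFinset, Finset.mem_coe]
  rw [Polynomial.mem_roots h, Polynomial.IsRoot, Polynomial.eval_map]
  unfold ev at hx
  rw [Polynomial.aeval_def] at hx
  exact hx

/-- The real roots are null for a measure without atoms. -/
theorem Adm.irreducible_rat {Q : ℤ[X]} (h : Adm Q) :
    Irreducible (Q.map (Int.castRingHom ℚ)) := by
  have hp : Q.IsPrimitive := h.1.isPrimitive (by have := h.2.1; omega)
  exact (Polynomial.IsPrimitive.Int.irreducible_iff_irreducible_map_cast hp).1 h.1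

theorem Adm.nodup {Q : ℤ[X]} (h : Adm Q) : (rts Q).Nodup := by
  have h1 : (Q.map (Int.castRingHom ℚ)).Separable := h.irreducible_rat.separable
  have h2 := h1.map (f := algebraMap ℚ ℂ)
  rw [Polynomial.map_map] at h2
  have h3 : (algebraMap ℚ ℂ).comp (Int.castRingHom ℚ) = Int.castRingHom ℂ := RingHom.ext_int _ _
  rw [h3] at h2
  exact Polynomial.nodup_roots h2

theorem Adm.disjoint {P Q : ℤ[X]} (hP : Adm P) (hQ : Adm Q) (hne : P ≠ Q) {z : ℂ}
    (h1 : z ∈ rts P) (h2 : z ∈ rts Q) : False := by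
  have e3 : (algebraMap ℚ ℂ).comp (Int.castRingHom ℚ) = Int.castRingHom ℂ := RingHom.ext_int _ _
  have key : ∀ {R : ℤ[X]}, Adm R → z ∈ rts R →
      Associated (minpoly ℚ z) (R.map (Int.castRingHom ℚ)) := by
    intro R hR hz
    have hz0 := (mem_rts hR.ne_zero z).1 hz
    have hroot : Polynomial.aeval z (R.map (Int.castRingHom ℚ)) = 0 := by
      rw [Polynomial.aeval_def, Polynomial.eval₂_map, e3]
      rw [Polynomial.aeval_def] at hz0
      exact hz0
    have hint : IsIntegral ℚ z := by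
      refine IsAlgebraic.isIntegral ⟨_, hR.irreducible_rat.ne_zero, hroot⟩
    have hd := minpoly.dvd ℚ z hroot
    exact (minpoly.irreducible hint).associated_of_dvd hR.irreducible_rat hd
  have hA : Associated (P.map (Int.castRingHom ℚ)) (Q.map (Int.castRingHom ℚ)) :=
    (key hP h1).symm.trans (key hQ h2)
  have pP : P.IsPrimitive := hP.1.isPrimitive (by have := hP.2.1; omega)
  have pQ : Q.IsPrimitive := hQ.1.isPrimitive (by have := hQ.2.1; omega)
  have d1 : P ∣ Q := (Polynomial.IsPrimitive.Int.dvd_iff_map_cast_dvd_map_cast P Q pP).2 hA.dvd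
  have d2 : Q ∣ P :=
    (Polynomial.IsPrimitive.Int.dvd_iff_map_cast_dvd_map_cast Q P pQ).2 hA.symm.dvd
  obtain ⟨A, hA1⟩ := d1
  obtain ⟨C, hC1⟩ := d2
  have h3 : Associated P Q := associated_of_dvd_dvd ⟨A, hA1⟩ ⟨C, hC1⟩
  obtain ⟨u, hu⟩ := h3
  obtain ⟨r, hr, hr2⟩ := Polynomial.isUnit_iff.1 u.isUnit
  rcases Int.isUnit_iff.1 hr with h | h
  · apply hne
    rw [← hu, ← hr2, h]; simp
  · exfalso
    have := congrArg Polynomial.leadingCoeff hu
    rw [← hr2, h] at this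
    have e1 : (P * Polynomial.C (-1)).leadingCoeff = - P.leadingCoeff := by simp
    rw [e1] at this
    have a1 := hP.2.2
    have a2 := hQ.2.2
    omega

end Pool.Agent.W401.SSS
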