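import Pool.Agent.W401.SSS.Main

/-!
# Arithmetic measures on the complex plane carried by the half line
-/

open MeasureTheory Polynomial

namespace Pool.Agent.W401.SSS

/-- Arithmetic probability measures on `ℂ`: for every nonzero integer polynomial `Q` the integral
of `log |Q|` is nonnegative in the extended sense (the roots of `Q` carry no mass, the integral
converges, and it is at least zero). -/
def ArithC (μ : Measure ℂ) : Prop := ∀ Q : ℤ[X], Q ≠ 0 →
  μ {z : ℂ | Polynomial.aeval z Q = 0} = 0 ∧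
  Integrable (fun z : ℂ => Real.log ‖Polynomial.aeval z Q‖) μ ∧
  0 ≤ ∫ z : ℂ, Real.log ‖Polynomial.aeval z Q‖ ∂μ

/-- The support of `μ` is a compact subset of the half line `[0,∞)`. -/
def CompactHalfLine (μ : Measure ℂ) : Prop :=
  ∃ K : Set ℂ, IsCompact K ∧ (∀ z ∈ K, z.im = 0 ∧ 0 ≤ z.re) ∧ μ Kᶜ = 0

theorem measurableEmbedding_ofReal : MeasurableEmbedding (fun x : ℝ => (x : ℂ)) :=
  Complex.isometry_ofReal.isClosedEmbedding.measurableEmbedding

theorem compactHalfLine_map {B : ℝ} {μ : Measure ℝ} (h : On B μ) :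
    CompactHalfLine (μ.map (fun x : ℝ => (x : ℂ))) := by
  refine ⟨(fun x : ℝ => (x : ℂ)) '' Set.Icc 0 B, isCompact_Icc.image Complex.continuous_ofReal,
    ?_, ?_⟩
  · rintro z ⟨x, hx, rfl⟩
    exact ⟨by simp, by simpa using hx.1⟩
  · rw [measurableEmbedding_ofReal.map_apply]
    refine measure_mono_null ?_ h.2
    intro x hx hx2
    exact hx ⟨x, hx2, rfl⟩

theorem arithC_map {μ : Measure ℝ} (h : Arith μ) : ArithC (μ.map (fun x : ℝ => (x : ℂ))) := by
  intro Q hQ
  obtain ⟨h1, h2, h3⟩ := h Q hQ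
  have e : (fun x : ℝ => Real.log ‖Polynomial.aeval (x : ℂ) Q‖) = fun x => Real.log |ev Q x| := by
    funext x
    rw [← ev_cast]; simp
  refine ⟨?_, ?_, ?_⟩
  · rw [measurableEmbedding_ofReal.map_apply]
    refine measure_mono_null ?_ h1
    intro x hx
    have hx' : Polynomial.aeval (x : ℂ) Q = 0 := hx
    rw [← ev_cast] at hx'
    exact_mod_cast hx'
  · rw [measurableEmbedding_ofReal.integrable_map_iff]
    simpa only [Function.comp_def, e] using h2
  · rw [measurableEmbedding_ofReal.integral_map]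
    rw [show (fun x : ℝ => Real.log ‖Polynomial.aeval ((fun x : ℝ => (x : ℂ)) x) Q‖)
      = fun x => Real.log |ev Q x| from e]
    exact h3

/-- Going back from `ℂ` to `ℝ`. -/
theorem map_re_map {μ : Measure ℂ} (h : CompactHalfLine μ) :
    (μ.map Complex.re).map (fun x : ℝ => (x : ℂ)) = μ := by
  obtain ⟨K, -, hK, hμ⟩ := h
  rw [Measure.map_map Complex.measurable_ofReal Complex.measurable_re]
  have : ((fun x : ℝ => (x : ℂ)) ∘ Complex.re) =ᵐ[μ] id := by
    have h1 : ∀ᵐ z ∂μ, z ∈ K := by rw [ae_iff]; exact hμ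
    filter_upwards [h1] with z hz
    apply Complex.ext
    · simp
    · simp [(hK z hz).1]
  rw [Measure.map_congr this, Measure.map_id]

theorem on_map_re {μ : Measure ℂ} (h1 : IsProbabilityMeasure μ) (h : CompactHalfLine μ) :
    ∃ B : ℝ, On B (μ.map Complex.re) := by
  obtain ⟨K, hKc, hK, hμ⟩ := h
  have hp : IsProbabilityMeasure (μ.map Complex.re) :=
    Measure.isProbabilityMeasure_map Complex.measurable_re.aemeasurable
  have hc : IsCompact (Complex.re '' K) := hKc.image Complex.continuous_re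
  obtain ⟨B, -, hB⟩ := on_of_compact hp ⟨Complex.re '' K, hc, by
    rintro x ⟨z, hz, rfl⟩
    exact (hK z hz).2, by
    rw [Measure.map_apply Complex.measurable_re hc.measurableSet.compl]
    refine measure_mono_null ?_ hμ
    intro z hz hz2
    exact hz ⟨z, hz2, rfl⟩⟩
  exact ⟨B, hB⟩

theorem arith_map_re {μ : Measure ℂ} (h : CompactHalfLine μ) (ha : ArithC μ) :
    Arith (μ.map Complex.re) := by
  intro Q hQ
  obtain ⟨h1, h2, h3⟩ := ha Q hQ
  have e : (fun x : ℝ => Real.log ‖Polynomial.aeval (x : ℂ) Q‖) = fun x => Real.log |ev Q x| := by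
    funext x
    rw [← ev_cast]; simp
  rw [← map_re_map h] at h1 h2 h3
  rw [measurableEmbedding_ofReal.map_apply] at h1
  rw [measurableEmbedding_ofReal.integrable_map_iff] at h2
  rw [measurableEmbedding_ofReal.integral_map] at h3
  refine ⟨?_, ?_, ?_⟩
  · refine measure_mono_null ?_ h1
    intro x hx
    have hx' : ev Q x = 0 := hx
    show Polynomial.aeval (x : ℂ) Q = 0
    rw [← ev_cast, hx']; simp
  · simpa only [Function.comp_def, e] using h2
  · rw [show (fun x : ℝ => Real.log ‖Polynomial.aeval ((fun x : ℝ => (x : ℂ)) x) Q‖)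
      = fun x => Real.log |ev Q x| from e] at h3
    exact h3

theorem integral_map_ofReal (μ : Measure ℝ) :
    ∫ z : ℂ, z ∂(μ.map (fun x : ℝ => (x : ℂ))) = ((mean μ : ℝ) : ℂ) := by
  rw [measurableEmbedding_ofReal.integral_map]
  unfold mean
  exact integral_ofReal

end Pool.Agent.W401.SSS
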