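import Mathlib

/-!
# Definitions for the Schur-Siegel-Smyth project (arithmetic measures)
-/

open MeasureTheory Polynomial

namespace Pool.Agent.W401.SSS

/-- Complex roots of an integer polynomial, with multiplicity. -/
noncomputable def rts (Q : ℤ[X]) : Multiset ℂ := (Q.map (Int.castRingHom ℂ)).roots

/-- Value of an integer polynomial at a real number. -/
noncomputable def ev (Q : ℤ[X]) (x : ℝ) : ℝ := Polynomial.aeval x Q

/-- Sum of `f` over the complex roots (with multiplicity). -/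
noncomputable def rsum (Q : ℤ[X]) (f : ℂ → ℝ) : ℝ := ((rts Q).map f).sum

/-- The integral of `log |Q|` against `μ` is nonnegative (in the extended sense: the roots of `Q`
carry no mass, the integral converges, and it is at least zero). -/
def LogNonneg (μ : Measure ℝ) (Q : ℤ[X]) : Prop :=
  μ {x | ev Q x = 0} = 0 ∧ Integrable (fun x => Real.log |ev Q x|) μ ∧
    0 ≤ ∫ x, Real.log |ev Q x| ∂μ

/-- Arithmetic measures. -/
def Arith (μ : Measure ℝ) : Prop := ∀ Q : ℤ[X], Q ≠ 0 → LogNonneg μ Q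

/-- `μ` is a probability measure carried by `[0,B]`. -/
def On (B : ℝ) (μ : Measure ℝ) : Prop := IsProbabilityMeasure μ ∧ μ (Set.Icc 0 B)ᶜ = 0

/-- The mean. -/
noncomputable def mean (μ : Measure ℝ) : ℝ := ∫ x, x ∂μ

/-- Irreducible, nonconstant, positive leading coefficient. -/
def Adm (Q : ℤ[X]) : Prop := Irreducible Q ∧ 0 < Q.natDegree ∧ 0 < Q.leadingCoeff

/-- The height-like weight of an integer polynomial. -/
noncomputable def wt (Q : ℤ[X]) : ℝ :=
  Real.log (Q.leadingCoeff : ℝ) + rsum Q (fun α => 1 + Real.log (1 + ‖α‖))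

/-- Finite logarithmic energy. -/
def Eint (μ : Measure ℝ) : Prop :=
  (μ.prod μ) {p : ℝ × ℝ | p.1 = p.2} = 0 ∧
    Integrable (fun p : ℝ × ℝ => Real.log |p.1 - p.2|) (μ.prod μ)

/-- Logarithmic energy. -/
noncomputable def En (μ : Measure ℝ) : ℝ := ∫ p : ℝ × ℝ, Real.log |p.1 - p.2| ∂(μ.prod μ)

/-- The weighted sum of `log |Q|`. -/
noncomputable def pot (F : Finset ℤ[X]) (a : ℤ[X] → ℝ) (x : ℝ) : ℝ :=
  ∑ Q ∈ F, a Q * Real.log |ev Q x|

/-- A dual certificate: `∑ a_Q log |Q(x)| ≤ x - lam + η` on `[0,B]`. -/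
structure Cert (lam η B : ℝ) (F : Finset ℤ[X]) (a : ℤ[X] → ℝ) : Prop where
  adm : ∀ Q ∈ F, Adm Q
  pos : ∀ Q ∈ F, 0 < a Q
  le : ∀ x ∈ Set.Icc (0 : ℝ) B, (∀ Q ∈ F, ev Q x ≠ 0) → pot F a x ≤ x - lam + η

/-- The defect of a certificate. -/
noncomputable def hh (lam η : ℝ) (F : Finset ℤ[X]) (a : ℤ[X] → ℝ) (x : ℝ) : ℝ :=
  x - lam + η - pot F a x

open Classical in
/-- The members of `F` with large coefficient. -/
noncomputable def heavy (F : Finset ℤ[X]) (a : ℤ[X] → ℝ) (ε : ℝ) : Finset ℤ[X] :=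
  F.filter (fun Q => ε ≤ a Q)

open Classical in
/-- The members of `F` with small coefficient. -/
noncomputable def light (F : Finset ℤ[X]) (a : ℤ[X] → ℝ) (ε : ℝ) : Finset ℤ[X] :=
  F.filter (fun Q => a Q < ε)

theorem mem_heavy {F : Finset ℤ[X]} {a : ℤ[X] → ℝ} {ε : ℝ} {Q : ℤ[X]} :
    Q ∈ heavy F a ε ↔ Q ∈ F ∧ ε ≤ a Q := by
  unfold heavy; exact Finset.mem_filter

theorem mem_light {F : Finset ℤ[X]} {a : ℤ[X] → ℝ} {ε : ℝ} {Q : ℤ[X]} :
    Q ∈ light F a ε ↔ Q ∈ F ∧ a Q < ε := by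
  unfold light; exact Finset.mem_filter

/-- Convex combination of two measures. -/
noncomputable def mix (s : ℝ) (μ ν : Measure ℝ) : Measure ℝ :=
  ENNReal.ofReal (1 - s) • μ + ENNReal.ofReal s • ν

/-- `log |Q|` truncated from below at `-M`; a continuous function. -/
noncomputable def trunc (Q : ℤ[X]) (M : ℕ) (x : ℝ) : ℝ :=
  Real.log (max |ev Q x| (Real.exp (-(M : ℝ))))

/-- Lipschitz distribution function (bounded density), constant `c`. -/
def Lip (c : ℝ) (ν : Measure ℝ) : Prop :=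
  ∀ x δ : ℝ, 0 ≤ δ → (ν (Set.Icc x (x + δ))).toReal ≤ c * δ

/-- The logarithmic potential of `ν` at a complex number. -/
noncomputable def Upot (ν : Measure ℝ) (z : ℂ) : ℝ := ∫ x, Real.log ‖(x : ℂ) - z‖ ∂ν

/-- `lam` is the least mean of an arithmetic probability measure with compact support in
`[0,∞)` (lower bound part). -/
def LowerMean (lam : ℝ) : Prop :=
  ∀ (B : ℝ) (ν : Measure ℝ), On B ν → Arith ν → lam ≤ mean ν

/-- The situation in the zero energy argument. -/
structure Setup (μ : Measure ℝ) (lam η : ℝ) (F : Finset ℤ[X]) (a : ℤ[X] → ℝ) : Prop where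
  on : On 1000 μ
  ar : Arith μ
  eint : Eint μ
  mean_eq : mean μ = lam
  lam0 : 0 ≤ lam
  lam6 : lam ≤ 6
  eta0 : 0 < η
  eta1 : η ≤ 1
  cert : Cert lam η 2000 F a

/-- All complex roots are real and nonnegative. -/
def TotPos (p : ℤ[X]) : Prop := ∀ z ∈ rts p, z.im = 0 ∧ 0 ≤ z.re

/-- Mean of the (real parts of the) roots. -/
noncomputable def mtr (p : ℤ[X]) : ℝ := rsum p (fun z => z.re) / p.natDegree

/-- Totally positive algebraic integers (all conjugates real and nonnegative). -/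
def TP : Type :=
  {α : ℂ // IsIntegral ℤ α ∧
    ∀ β : ℂ, Polynomial.aeval β (minpoly ℤ α) = 0 → β.im = 0 ∧ 0 ≤ β.re}

/-- The Schur-Siegel-Smyth constant: the lower limit of the mean trace over the totally positive
algebraic integers. -/
noncomputable def lamSSS : ℝ :=
  Filter.liminf (fun α : TP => mtr (minpoly ℤ α.1)) Filter.cofinite

end Pool.Agent.W401.SSS
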