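import Pool.Agent.W401.SSS.P.ANDR
import Pool.Agent.W401.SSS.P.ANDRF
import Pool.Agent.W401.SSS.P.AVG
import Pool.Agent.W401.SSS.P.BARY
import Pool.Agent.W401.SSS.P.BI
import Pool.Agent.W401.SSS.P.BLK
import Pool.Agent.W401.SSS.P.BLKU
import Pool.Agent.W401.SSS.P.CB
import Pool.Agent.W401.SSS.P.CHEB
import Pool.Agent.W401.SSS.P.CORE
import Pool.Agent.W401.SSS.P.COUNT
import Pool.Agent.W401.SSS.P.CPT
import Pool.Agent.W401.SSS.P.DER
import Pool.Agent.W401.SSS.P.DUAL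
import Pool.Agent.W401.SSS.P.EI
import Pool.Agent.W401.SSS.P.EISEN
import Pool.Agent.W401.SSS.P.EXIST
import Pool.Agent.W401.SSS.P.FACT
import Pool.Agent.W401.SSS.P.GROW
import Pool.Agent.W401.SSS.P.HANK
import Pool.Agent.W401.SSS.P.HANKA
import Pool.Agent.W401.SSS.P.HANKB
import Pool.Agent.W401.SSS.P.HANKC
import Pool.Agent.W401.SSS.P.HANKP
import Pool.Agent.W401.SSS.P.HERM
import Pool.Agent.W401.SSS.P.INTEG
import Pool.Agent.W401.SSS.P.LAT
import Pool.Agent.W401.SSS.P.LIMI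
import Pool.Agent.W401.SSS.P.LIPL
import Pool.Agent.W401.SSS.P.MINB
import Pool.Agent.W401.SSS.P.MIXL
import Pool.Agent.W401.SSS.P.MU
import Pool.Agent.W401.SSS.P.MUB
import Pool.Agent.W401.SSS.P.NEGF
import Pool.Agent.W401.SSS.P.NEGM
import Pool.Agent.W401.SSS.P.NEGR
import Pool.Agent.W401.SSS.P.NICE
import Pool.Agent.W401.SSS.P.PK
import Pool.Agent.W401.SSS.P.POLY
import Pool.Agent.W401.SSS.P.PT
import Pool.Agent.W401.SSS.P.PTQ
import Pool.Agent.W401.SSS.P.QUANT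
import Pool.Agent.W401.SSS.P.RES
import Pool.Agent.W401.SSS.P.SCALE
import Pool.Agent.W401.SSS.P.SEP
import Pool.Agent.W401.SSS.P.SER1
import Pool.Agent.W401.SSS.P.SER2
import Pool.Agent.W401.SSS.P.SETI
import Pool.Agent.W401.SSS.P.SGN
import Pool.Agent.W401.SSS.P.SMC
import Pool.Agent.W401.SSS.P.SMITH
import Pool.Agent.W401.SSS.P.SMOO
import Pool.Agent.W401.SSS.P.SMYTH
import Pool.Agent.W401.SSS.P.STRICT
import Pool.Agent.W401.SSS.P.SUPPB
import Pool.Agent.W401.SSS.P.TAIL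
import Pool.Agent.W401.SSS.P.TRANS
import Pool.Agent.W401.SSS.P.TRUNC
import Pool.Agent.W401.SSS.P.UNI1
import Pool.Agent.W401.SSS.P.UNI2
import Pool.Agent.W401.SSS.P.UNIF
import Pool.Agent.W401.SSS.P.UNIM
import Pool.Agent.W401.SSS.P.UNIQ
import Pool.Agent.W401.SSS.P.VUB
import Pool.Agent.W401.SSS.P.ZEND
import Pool.Agent.W401.SSS.Cplx

/-!
# The Schur-Siegel-Smyth project: all steps together
-/

open MeasureTheory Polynomial

namespace Pool.Agent.W401.SSS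

theorem fUNI2 : UNI2 := pUNI2 pUNI1
theorem fUNIF : UNIF := pUNIF pUNI1 fUNI2 pFACT
theorem fDUAL : DUAL := pDUAL pCPT pTRUNC pFACT (pSEP pUNI1)
theorem fMINB : MINB := pMINB pCPT pTRUNC pFACT fUNIF
theorem fCB : CB := pCB fUNIF
theorem fGROW : GROW := pGROW fCB
theorem fSUPPB : SUPPB := pSUPPB fDUAL fGROW fUNIF
theorem fEXIST : EXIST := pEXIST fMINB fSUPPB fUNIF
theorem fBI : BI := pBI fCB pPK pUNI1
theorem fNEGR : NEGR := pNEGR pNEGF
theorem fNEGM : NEGM := pNEGM fNEGR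
theorem fEI : EI := pEI fNEGM pRES pINTEG
theorem fSETI : SETI := pSETI fBI pINTEG
theorem fCOUNT : COUNT := pCOUNT fSETI fEI fCB
theorem fTAIL : TAIL := pTAIL fSETI fEI
theorem fAVG : AVG := pAVG pUNI1
theorem fDER : DER := pDER fAVG fCB pUNI1
theorem fMU : MU := pMU pMUB
theorem fPTQ : PTQ := pPTQ pPT
theorem fZEND : ZEND := pZEND fSETI fCOUNT pSCALE fTAIL fDER fCB fMU fPTQ pPOLY
theorem fSER1 : SER1 := pSER1 fNEGR pANDR pHERM
theorem fSERRE : SERRE := serre fSER1 pSER2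
theorem fUNIQ : UNIQ := pUNIQ pSTRICT
theorem fSMYTH : SMYTH := pSMYTH fGROW
theorem fSMOO : SMOO := pSMOO pUNI1 pLIPL
theorem fNICE : NICE := pNICE fSMOO fUNIF pMIXL pFACT pINTEG
theorem fBARY : BARY := pBARY pQUANT pLIPL
theorem fTRANS : TRANS := pTRANS pHERM pUNIM
theorem fLAT : LAT := pLAT fTRANS
theorem fHANK : HANK := pHANK pHANKA pHANKB pHANKC pHANKP
theorem fBLKU : BLKU := pBLKU pLIPL
theorem fBLK : BLK := pBLK pQUANT fBLKU pLIPL
theorem fVUB : VUB := pVUB fNEGR pLIPL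
theorem fCORE : CORE := pCORE fSERRE pANDRF fHANK fBLK fVUB pLIPL
theorem fSMC : SMC := pSMC fBARY pCHEB fCORE fLAT pEISEN pSGN
theorem fSMITH : SMITH := pSMITH fSMC

/-- Every arithmetic probability measure carried by `[0,B]` has mean at least the constant, the
constant is attained, and all minimisers have zero energy. -/
theorem facts :
    LowerMean lamSSS ∧ (∃ μ, On 1000 μ ∧ Arith μ ∧ mean μ = lamSSS) ∧
    ∀ (B : ℝ) (μ : Measure ℝ), On B μ → Arith μ → mean μ = lamSSS →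
      On 1000 μ ∧ Eint μ ∧ En μ = 0 :=
  core_facts fEXIST fDUAL fSERRE fZEND fSUPPB fSMYTH fNICE fSMITH pLIMI

theorem unique_facts {B B' : ℝ} {μ ν : Measure ℝ} (h1 : On B μ) (h2 : Arith μ)
    (h3 : mean μ = lamSSS) (g1 : On B' ν) (g2 : Arith ν) (g3 : mean ν = lamSSS) : μ = ν :=
  unique_real fEXIST fDUAL fSERRE fZEND fSUPPB fSMYTH fNICE fSMITH pLIMI pMIXL fUNIQ
    h1 h2 h3 g1 g2 g3

end Pool.Agent.W401.SSS
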