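import Pool.Agent.W401.SSS.Stm

/-!
# Assembly of the Schur-Siegel-Smyth project
-/

open MeasureTheory Polynomial

namespace Pool.Agent.W401.SSS

theorem On.mono {B B' : ℝ} {μ : Measure ℝ} (h : On B μ) (hB : B ≤ B') : On B' μ := by
  refine ⟨h.1, ?_⟩
  refine measure_mono_null ?_ h.2
  exact Set.compl_subset_compl.2 (Set.Icc_subset_Icc_right hB)

theorem On.ae_mem {B : ℝ} {μ : Measure ℝ} (h : On B μ) : ∀ᵐ x ∂μ, x ∈ Set.Icc (0 : ℝ) B := by
  have := h.2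
  rw [ae_iff]
  exact this

theorem On.nonneg {B : ℝ} {μ : Measure ℝ} (h : On B μ) : 0 ≤ B := by
  by_contra hB
  push Not at hB
  have h1 := h.2
  rw [Set.Icc_eq_empty (by linarith), Set.compl_empty] at h1
  have := h.1
  rw [measure_univ] at h1
  exact one_ne_zero h1

theorem On.mean_nonneg {B : ℝ} {μ : Measure ℝ} (h : On B μ) : 0 ≤ mean μ := by
  unfold mean
  apply integral_nonneg_of_ae
  filter_upwards [h.ae_mem] with x hx using hx.1

/-- Compactly supported measures on the half line are carried by some `[0,B]`. -/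
theorem on_of_compact {μ : Measure ℝ} (h1 : IsProbabilityMeasure μ)
    (h2 : ∃ K : Set ℝ, IsCompact K ∧ K ⊆ Set.Ici 0 ∧ μ Kᶜ = 0) : ∃ B : ℝ, 12 ≤ B ∧ On B μ := by
  obtain ⟨K, hK, hK0, hμ⟩ := h2
  obtain ⟨M, hM⟩ := hK.bddAbove
  refine ⟨max M 12, le_max_right _ _, h1, ?_⟩
  refine measure_mono_null (Set.compl_subset_compl.2 ?_) hμ
  intro x hx
  exact ⟨hK0 hx, (hM hx).trans (le_max_left _ _)⟩

theorem serre (h1 : SER1) (h2 : SER2) : SERRE := fun B μ ho ha => h2 B μ ho (h1 B μ ho ha)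

/-- Zero energy of the minimisers. -/
theorem zero_energy (hD : DUAL) (hS : SERRE) (hZ : ZEND) {μ : Measure ℝ} {lam : ℝ}
    (h0 : 0 ≤ lam) (h6 : lam ≤ 6) (ho : On 1000 μ) (ha : Arith μ) (hm : mean μ = lam)
    (hl : LowerMean lam) : Eint μ ∧ En μ = 0 := by
  obtain ⟨he, hn⟩ := hS 1000 μ ho ha
  refine ⟨he, le_antisymm ?_ hn⟩
  exact hZ μ lam ho ha he hm h0 h6 fun η hη =>
    hD 2000 lam η (by norm_num) hη fun ν h h' => hl 2000 ν h h'

/-- The constant is the least mean of an arithmetic measure. -/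
theorem lamSSS_eq (hD : DUAL) (hS : SERRE) (hSm : SMYTH) (hN : NICE) (hSi : SMITH) (hL : LIMI)
    {μ : Measure ℝ} {lam : ℝ} (h0 : 0 ≤ lam) (h6 : lam ≤ 6) (ho : On 1000 μ) (ha : Arith μ)
    (hm : mean μ = lam) (hl : LowerMean lam) : lamSSS = lam := by
  apply hL lam
  · exact hSm lam h0 h6 fun η hη =>
      hD 2000 lam η (by norm_num) hη fun ν h h' => hl 2000 ν h h'
  · intro t N ht
    obtain ⟨ν, c, hc, hoν, hLip, haν, hmν⟩ := hN 1000 ((t - lam) / 2) μ (by norm_num) ho ha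
      (hS 1000 μ ho ha).1 (by linarith)
    exact hSi (1000 + 1) c ν (by norm_num) hc hoν hLip haν t N (by rw [hm] at hmν; linarith)

/-- All steps together: the three facts needed for the results. -/
theorem core_facts (hE : EXIST) (hD : DUAL) (hS : SERRE) (hZ : ZEND) (hSu : SUPPB) (hSm : SMYTH)
    (hN : NICE) (hSi : SMITH) (hL : LIMI) :
    LowerMean lamSSS ∧ (∃ μ, On 1000 μ ∧ Arith μ ∧ mean μ = lamSSS) ∧
    ∀ (B : ℝ) (μ : Measure ℝ), On B μ → Arith μ → mean μ = lamSSS →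
      On 1000 μ ∧ Eint μ ∧ En μ = 0 := by
  obtain ⟨μ, lam, h0, h6, ho, ha, hm, hl⟩ := hE
  have e := lamSSS_eq hD hS hSm hN hSi hL h0 h6 ho ha hm hl
  rw [e]
  refine ⟨hl, ⟨μ, ho, ha, hm⟩, ?_⟩
  intro B ν hoν haν hmν
  have h1000 : On 1000 ν := by
    have hB := hoν.mono (le_max_left B 12)
    exact hSu (max B 12) lam ν (le_max_right _ _) (fun ν' a b => hl _ ν' a b) hB haν hmν
  exact ⟨h1000, zero_energy hD hS hZ h0 h6 h1000 haν hmν hl⟩

/-- Uniqueness from zero energy. -/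
theorem unique_real (hE : EXIST) (hD : DUAL) (hS : SERRE) (hZ : ZEND) (hSu : SUPPB) (hSm : SMYTH)
    (hN : NICE) (hSi : SMITH) (hL : LIMI) (hM : MIXL) (hU : UNIQ)
    {B B' : ℝ} {μ ν : Measure ℝ} (h1 : On B μ) (h2 : Arith μ) (h3 : mean μ = lamSSS)
    (g1 : On B' ν) (g2 : Arith ν) (g3 : mean ν = lamSSS) : μ = ν := by
  obtain ⟨-, -, key⟩ := core_facts hE hD hS hZ hSu hSm hN hSi hL
  obtain ⟨a1, a2, a3⟩ := key B μ h1 h2 h3
  obtain ⟨b1, b2, b3⟩ := key B' ν g1 g2 g3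
  obtain ⟨m1, m2, m3, m4⟩ := hM 1000 (1 / 2) μ ν (by norm_num) (by norm_num) a1 b1
  obtain ⟨c1, c2, c3⟩ := key 1000 (mix (1 / 2) μ ν) m1 (m3 h2 g2)
    (by rw [m4, h3, g3]; ring)
  exact hU 1000 μ ν a1 b1 a2 a3 b2 b3 c2 c3

end Pool.Agent.W401.SSS
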