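import Pool.Agent.W401.SSS.Api

/-!
# Statements of the steps of the Schur-Siegel-Smyth project
-/

open MeasureTheory Polynomial

namespace Pool.Agent.W401.SSS

/-! ## Uniform measure -/

def UNI1 : Prop := ∀ (p B : ℝ) (α : ℂ), 0 < B →
  IntervalIntegrable (fun x : ℝ => Real.log ‖(x : ℂ) - α‖) volume p (p + B) ∧
  B * (Real.log (B / 2) - 1) ≤ ∫ x in p..(p + B), Real.log ‖(x : ℂ) - α‖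

def UNI2 : Prop := ∀ α : ℂ,
  (1 + Real.log (1 + ‖α‖)) / 10 ≤ (1 / 12) * ∫ x in (0 : ℝ)..12, Real.log ‖(x : ℂ) - α‖

def UNIF : Prop := ∃ ν : Measure ℝ, On 12 ν ∧ mean ν = 6 ∧ Lip (1 / 12) ν ∧ Arith ν ∧
  (∀ α : ℂ, Integrable (fun x : ℝ => Real.log ‖(x : ℂ) - α‖) ν ∧
    (1 + Real.log (1 + ‖α‖)) / 10 ≤ Upot ν α) ∧
  ∀ Q : ℤ[X], Adm Q → wt Q / 10 ≤ ∫ x, Real.log |ev Q x| ∂ν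

/-! ## Compactness and duality -/

def CPT : Prop := ∀ (B : ℝ), 0 ≤ B → ∀ (ι : Type) (f : ι → ℝ → ℝ), (∀ i, Continuous (f i)) →
  (∀ S : Finset ι, ∃ ν : Measure ℝ, On B ν ∧ ∀ i ∈ S, 0 ≤ ∫ x, f i x ∂ν) →
  ∃ ν : Measure ℝ, On B ν ∧ ∀ i, 0 ≤ ∫ x, f i x ∂ν

def TRUNC : Prop := ∀ (B : ℝ) (ν : Measure ℝ) (Q : ℤ[X]), Q ≠ 0 → On B ν →
  (∀ M : ℕ, 0 ≤ ∫ x, trunc Q M x ∂ν) → LogNonneg ν Q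

def FACT : Prop := ∀ (B : ℝ) (ν : Measure ℝ), On B ν →
  (∀ Q : ℤ[X], Adm Q → LogNonneg ν Q) → Arith ν

def SEP : Prop := ∀ (B lam η : ℝ) (F : Finset ℤ[X]), 12 ≤ B → (∀ Q ∈ F, Adm Q) →
  (∃ a : ℤ[X] → ℝ, (∀ Q ∈ F, 0 ≤ a Q) ∧
    ∀ x ∈ Set.Icc (0 : ℝ) B, (∀ Q ∈ F, ev Q x ≠ 0) → pot F a x ≤ x - lam + η) ∨
  (∃ ν : Measure ℝ, On B ν ∧ mean ν < lam - η ∧ ∀ Q ∈ F, LogNonneg ν Q)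

def DUAL : Prop := ∀ (B lam η : ℝ), 12 ≤ B → 0 < η →
  (∀ ν : Measure ℝ, On B ν → Arith ν → lam ≤ mean ν) → ∃ F a, Cert lam η B F a

def MINB : Prop := ∀ B : ℝ, 12 ≤ B → ∃ ν : Measure ℝ, On B ν ∧ Arith ν ∧
  ∀ ν' : Measure ℝ, On B ν' → Arith ν' → mean ν ≤ mean ν'

def CB : Prop := ∀ (lam η B : ℝ) (F : Finset ℤ[X]) (a : ℤ[X] → ℝ), 12 ≤ B → 0 ≤ lam → η ≤ 1 →
  Cert lam η B F a → ∑ Q ∈ F, a Q * wt Q ≤ 70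

def GROW : Prop := ∀ (lam η B : ℝ) (F : Finset ℤ[X]) (a : ℤ[X] → ℝ), 12 ≤ B → 0 ≤ lam → η ≤ 1 →
  Cert lam η B F a → ∀ x : ℝ, 1000 ≤ x → (∀ Q ∈ F, ev Q x ≠ 0) → pot F a x ≤ x - 7

def SUPPB : Prop := ∀ (B lam : ℝ) (μ : Measure ℝ), 12 ≤ B →
  (∀ ν : Measure ℝ, On B ν → Arith ν → lam ≤ mean ν) → On B μ → Arith μ → mean μ = lam →
  On 1000 μ

def EXIST : Prop := ∃ (μ : Measure ℝ) (lam : ℝ), 0 ≤ lam ∧ lam ≤ 6 ∧ On 1000 μ ∧ Arith μ ∧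
  mean μ = lam ∧ LowerMean lam

/-! ## Box inequality -/

def PK : Prop := ∀ (t : ℝ) (b : ℂ), 0 < t → t ≤ 1 →
  IntervalIntegrable (fun u : ℝ => t / (Real.pi * (u ^ 2 + t ^ 2)) * Real.log ‖(u : ℂ) - b‖)
    volume (-1) 1 ∧
  (1 / 2) * Real.log (‖b‖ ^ 2 + t ^ 2) - 2 * t * (1 + Real.log (1 + ‖b‖)) ≤
    ∫ u in (-1 : ℝ)..1, t / (Real.pi * (u ^ 2 + t ^ 2)) * Real.log ‖(u : ℂ) - b‖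

def BI : Prop := ∃ C : ℝ, 0 ≤ C ∧ ∀ (lam η : ℝ) (F : Finset ℤ[X]) (a : ℤ[X] → ℝ),
  0 ≤ lam → lam ≤ 6 → 0 < η → η ≤ 1 → Cert lam η 2000 F a →
  ∀ x ∈ Set.Icc (0 : ℝ) 1000, (∀ Q ∈ F, ev Q x ≠ 0) → ∀ r : ℝ, 0 < r → r ≤ 1 →
  ∑ Q ∈ F, a Q * rsum Q (fun α => (1 / 2) * Real.log (1 + r ^ 2 / ‖(x : ℂ) - α‖ ^ 2)) ≤
    C * Real.sqrt r + hh lam η F a x

/-! ## Energy inequalities -/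

def NEGF : Prop := ∀ (ι : Type) [Fintype ι] (z : ι → ℂ) (ρ c : ι → ℝ), (∀ i, 0 < ρ i) →
  ∑ i, c i = 0 →
  ∑ i, ∑ j, c i * c j * Real.log (‖z i - z j‖ ^ 2 + ρ i ^ 2 + ρ j ^ 2) ≤ 0

def NEGR : Prop := ∀ (B : ℝ) (μ : Measure ℝ), On B μ → ∀ (ι : Type) [Fintype ι]
  (α : ι → ℂ) (b r : ι → ℝ) (ρ : ℝ), (∀ i, 0 < r i) → 0 < ρ →
  (∑ i, b i) ^ 2 * ∫ p : ℝ × ℝ, Real.log ((p.1 - p.2) ^ 2 + 2 * ρ ^ 2) ∂(μ.prod μ)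
    - 2 * (∑ i, b i) * ∑ i, b i * ∫ x : ℝ, Real.log (‖(x : ℂ) - α i‖ ^ 2 + ρ ^ 2 + r i ^ 2) ∂μ
    + ∑ i, ∑ j, b i * b j * Real.log (‖α i - α j‖ ^ 2 + r i ^ 2 + r j ^ 2) ≤ 0

def NEGM : Prop := ∀ (B : ℝ) (μ : Measure ℝ), On B μ → Eint μ → ∀ (ι : Type) [Fintype ι]
  (α : ι → ℂ) (b r : ι → ℝ), (∀ i, 0 < r i) →
  (∑ i, b i) ^ 2 * (2 * En μ)
    - 2 * (∑ i, b i) * ∑ i, b i * ∫ x : ℝ, Real.log (‖(x : ℂ) - α i‖ ^ 2 + r i ^ 2) ∂μ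
    + ∑ i, ∑ j, b i * b j * Real.log (‖α i - α j‖ ^ 2 + r i ^ 2 + r j ^ 2) ≤ 0

def RES : Prop := ∀ (F : Finset ℤ[X]) (b : ℤ[X] → ℝ), (∀ Q ∈ F, Adm Q ∧ 0 ≤ b Q) →
  -(2 * (∑ Q ∈ F, b Q * (Q.natDegree : ℝ)) * (∑ Q ∈ F, b Q * Real.log (Q.leadingCoeff : ℝ))) ≤
    ∑ Q ∈ F, ∑ P ∈ F, b Q * b P * rsum Q (fun α => rsum P (fun β => Real.log ‖α - β‖))

def INTEG : Prop := ∀ (B : ℝ) (μ : Measure ℝ) (Q : ℤ[X]), On B μ → Q ≠ 0 → LogNonneg μ Q →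
  (∀ α ∈ rts Q, Integrable (fun x : ℝ => Real.log ‖(x : ℂ) - α‖) μ) ∧
  (∀ r : ℝ, Integrable
    (fun x : ℝ => rsum Q (fun α => (1 / 2) * Real.log (1 + r ^ 2 / ‖(x : ℂ) - α‖ ^ 2))) μ)

def EI : Prop := ∀ μ : Measure ℝ, On 1000 μ → Arith μ → Eint μ →
  ∀ (F : Finset ℤ[X]) (b r : ℤ[X] → ℝ), (∀ Q ∈ F, Adm Q ∧ 0 ≤ b Q ∧ 0 < r Q ∧ r Q ≤ 1) →
  (∑ Q ∈ F, b Q * (Q.natDegree : ℝ)) ^ 2 * En μ ≤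
    2 * (∑ Q ∈ F, b Q * (Q.natDegree : ℝ)) *
      (∑ Q ∈ F, b Q * ∫ x, Real.log |ev Q x| ∂μ +
        ∑ Q ∈ F, b Q * ∫ x : ℝ, rsum Q
          (fun α => (1 / 2) * Real.log (1 + r Q ^ 2 / ‖(x : ℂ) - α‖ ^ 2)) ∂μ) +
    ∑ Q ∈ F, b Q ^ 2 * (Q.natDegree : ℝ) * Real.log (1 / r Q)

def SETI : Prop := ∃ C : ℝ, 0 ≤ C ∧ ∀ (μ : Measure ℝ) (lam η : ℝ) (F : Finset ℤ[X])
  (a : ℤ[X] → ℝ), Setup μ lam η F a →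
  Integrable (hh lam η F a) μ ∧ (∀ᵐ x ∂μ, 0 ≤ hh lam η F a x) ∧
  ∫ x, hh lam η F a x ∂μ ≤ η ∧ (∀ Q ∈ F, 0 ≤ ∫ x, Real.log |ev Q x| ∂μ) ∧
  ∑ Q ∈ F, a Q * ∫ x, Real.log |ev Q x| ∂μ ≤ η ∧
  ∀ r : ℝ, 0 < r → r ≤ 1 →
    ∑ Q ∈ F, a Q * ∫ x : ℝ, rsum Q
      (fun α => (1 / 2) * Real.log (1 + r ^ 2 / ‖(x : ℂ) - α‖ ^ 2)) ∂μ ≤ C * Real.sqrt r + η

def COUNT : Prop := ∀ c : ℝ, 0 < c → ∃ K η0 : ℝ, 0 < K ∧ 0 < η0 ∧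
  ∀ (μ : Measure ℝ) (lam η : ℝ) (F : Finset ℤ[X]) (a : ℤ[X] → ℝ), Setup μ lam η F a →
  c ≤ En μ → η ≤ η0 →
  ∑ Q ∈ heavy F a (Real.sqrt η), (Q.natDegree : ℝ) / (1 + max 0 (Real.log (1 / a Q))) ≤ K

def SCALE : Prop := ∀ K κ δ1 : ℝ, 0 < K → 0 < κ → 0 < δ1 → ∃ η0 : ℝ, 0 < η0 ∧
  ∀ η : ℝ, 0 < η → η ≤ η0 → ∀ (F : Finset ℤ[X]) (a : ℤ[X] → ℝ), (∀ Q ∈ F, 0 < a Q) →
  ∑ Q ∈ heavy F a (Real.sqrt η), (Q.natDegree : ℝ) / (1 + max 0 (Real.log (1 / a Q))) ≤ K →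
  ∃ δ : ℝ, 0 < δ ∧ δ ≤ δ1 ∧ η ≤ δ ^ 64 ∧
    ∑ Q ∈ heavy F a (δ ^ 8), (Q.natDegree : ℝ) ≤ κ * Real.log (1 / δ)

def TAIL : Prop := ∀ c : ℝ, 0 < c → ∃ K δ0 : ℝ, 0 < K ∧ 0 < δ0 ∧
  ∀ (μ : Measure ℝ) (lam η : ℝ) (F : Finset ℤ[X]) (a : ℤ[X] → ℝ), Setup μ lam η F a →
  c ≤ En μ → ∀ δ : ℝ, 0 < δ → δ ≤ δ0 → η ≤ δ ^ 8 →
  ∑ Q ∈ light F a (δ ^ 8), a Q * (Q.natDegree : ℝ) ≤ K * δ ^ 8 * Real.log (1 / δ)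

def DER : Prop := ∀ K : ℝ, 0 < K → ∃ δ0 : ℝ, 0 < δ0 ∧
  ∀ (lam η : ℝ) (F : Finset ℤ[X]) (a : ℤ[X] → ℝ), 0 ≤ lam → lam ≤ 6 → 0 < η → η ≤ 1 →
  Cert lam η 2000 F a → ∀ δ : ℝ, 0 < δ → δ ≤ δ0 →
  ∑ Q ∈ light F a (δ ^ 8), a Q * (Q.natDegree : ℝ) ≤ K * δ ^ 8 * Real.log (1 / δ) →
  ∀ x : ℝ, δ ^ 4 ≤ x → x ≤ 1000 → (∀ Q ∈ F, ev Q x ≠ 0) → hh lam η F a x ≤ δ ^ 8 →
  (∀ Q ∈ heavy F a (δ ^ 8), ∀ α ∈ rts Q, δ ≤ ‖(x : ℂ) - α‖) →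
  |1 - ∑ Q ∈ heavy F a (δ ^ 8), a Q * (ev (derivative Q) x / ev Q x)| ≤ δ

def AVG : Prop := ∀ (x d : ℝ) (α : ℂ), 0 < d → (x : ℂ) ≠ α →
  Real.log ‖(x : ℂ) - α‖ - (2 / d) * ∫ y in (x + d / 2)..(x + d), Real.log ‖(y : ℂ) - α‖ ≤ 4 ∧
  Real.log ‖(x : ℂ) - α‖ - (2 / d) * ∫ y in (x - d)..(x - d / 2), Real.log ‖(y : ℂ) - α‖ ≤ 4

def MUB : Prop := ∀ (μ : Measure ℝ) (M : ℝ) (G : Set ℝ), On 1000 μ → 0 ≤ M → IsCompact G →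
  G ⊆ Set.Icc 0 1000 → 1 / 4 ≤ (μ G).toReal →
  (∀ x ∈ G, Integrable (fun y : ℝ => Real.log |x - y|) μ ∧ -M ≤ ∫ y, Real.log |x - y| ∂μ) →
  (∀ x, μ {x} = 0) →
  ∀ β : ℂ, IntegrableOn (fun x : ℝ => Real.log ‖(x : ℂ) - β‖) G μ ∧
    (μ G).toReal * (Real.log (1 + ‖β‖) - (4 * (M + 8) + 8)) ≤
      ∫ x in G, Real.log ‖(x : ℂ) - β‖ ∂μ

def MU : Prop := ∀ μ : Measure ℝ, On 1000 μ → Eint μ → ∃ C1 κ0 δ0 : ℝ, 0 ≤ C1 ∧ 0 < κ0 ∧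
  0 < δ0 ∧ ∀ δ : ℝ, 0 < δ → δ ≤ δ0 → ∀ S : Finset ℂ, (S.card : ℝ) ≤ κ0 * Real.log (1 / δ) →
  ∀ E0 : Set ℝ, MeasurableSet E0 → (μ E0ᶜ).toReal ≤ δ ^ 8 →
  ∃ G : Set ℝ, IsCompact G ∧ G ⊆ E0 ∧ G ⊆ Set.Icc (δ ^ 4) 1000 ∧
    (∀ x ∈ G, ∀ s ∈ S, δ ≤ ‖(x : ℂ) - s‖) ∧ 1 / 4 ≤ (μ G).toReal ∧
    ∀ β : ℂ, IntegrableOn (fun x : ℝ => Real.log ‖(x : ℂ) - β‖) G μ ∧
      (μ G).toReal * (Real.log (1 + ‖β‖) - C1) ≤ ∫ x in G, Real.log ‖(x : ℂ) - β‖ ∂μ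

def PT : Prop := ∃ R C : ℝ, 0 < R ∧ 0 ≤ C ∧ ∀ (ι : Type) [Fintype ι] (α : ι → ℂ) (w : ι → ℝ),
  (∀ i, 0 ≤ w i) → ∑ i, w i ≤ 70 →
  ∃ z : ℂ, ‖z‖ ≤ R ∧ (∀ i, z ≠ α i) ∧ 1 / 2 ≤ ‖1 - ∑ i, (w i : ℂ) / (z - α i)‖ ∧
    -(C * (Fintype.card ι : ℝ)) ≤ ∑ i, (Real.log ‖z - α i‖ - Real.log (1 + ‖α i‖))

def PTQ : Prop := ∃ R C : ℝ, 0 < R ∧ 0 ≤ C ∧ ∀ (H : Finset ℤ[X]) (a : ℤ[X] → ℝ),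
  (∀ Q ∈ H, Adm Q ∧ 0 ≤ a Q) → ∑ Q ∈ H, a Q * (Q.natDegree : ℝ) ≤ 70 →
  ∃ z : ℂ, ‖z‖ ≤ R ∧ (∀ Q ∈ H, aeval z Q ≠ 0) ∧
    1 / 2 ≤ ‖1 - ∑ Q ∈ H, (a Q : ℂ) * (aeval z (derivative Q) / aeval z Q)‖ ∧
    -(C * ∑ Q ∈ H, (Q.natDegree : ℝ)) ≤
      ∑ Q ∈ H, rsum Q (fun α => Real.log ‖z - α‖ - Real.log (1 + ‖α‖))

def POLY : Prop := ∀ (μ : Measure ℝ) (G : Set ℝ) (C1 : ℝ), IsProbabilityMeasure μ →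
  (∀ x, μ {x} = 0) → MeasurableSet G → 0 ≤ C1 →
  (∀ β : ℂ, IntegrableOn (fun x : ℝ => Real.log ‖(x : ℂ) - β‖) G μ ∧
    (μ G).toReal * (Real.log (1 + ‖β‖) - C1) ≤ ∫ x in G, Real.log ‖(x : ℂ) - β‖ ∂μ) →
  ∀ (P : ℂ[X]) (z0 : ℂ), P.eval z0 ≠ 0 →
    IntegrableOn (fun x : ℝ => Real.log ‖P.eval (x : ℂ)‖) G μ ∧
    (μ G).toReal * Real.log ‖P.eval z0‖ ≤ ∫ x in G, Real.log ‖P.eval (x : ℂ)‖ ∂μ +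
      (μ G).toReal * (P.natDegree : ℝ) * (C1 + Real.log (1 + ‖z0‖))

/-- Zero energy: if certificates exist for every `η` then the energy is not positive. -/
def ZEND : Prop := ∀ (μ : Measure ℝ) (lam : ℝ), On 1000 μ → Arith μ → Eint μ → mean μ = lam →
  0 ≤ lam → lam ≤ 6 → (∀ η : ℝ, 0 < η → ∃ F a, Cert lam η 2000 F a) → En μ ≤ 0

/-! ## Nonnegativity of the energy -/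

def ANDR : Prop := ∀ (B : ℝ) (μ : Measure ℝ), On B μ → ∀ (n : ℕ) (w : ℝ → ℝ), Continuous w →
  (n.factorial : ℝ) * Matrix.det (Matrix.of fun i j : Fin n =>
      ∫ x : ℝ, w x * x ^ ((i : ℕ) + (j : ℕ)) ∂μ) =
    ∫ x : Fin n → ℝ, (∏ i, w (x i)) * (∏ i, ∏ j ∈ Finset.Ioi i, (x j - x i)) ^ 2
      ∂(Measure.pi fun _ => μ)

def ANDRF : Prop := ∀ (T : Finset ℝ) (q : ℕ) (w : ℝ → ℝ),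
  (q.factorial : ℝ) * Matrix.det (Matrix.of fun i j : Fin q =>
      ∑ τ ∈ T, w τ * τ ^ ((i : ℕ) + (j : ℕ))) =
    ∑ f ∈ Fintype.piFinset (fun _ : Fin q => T),
      (∏ i, w (f i)) * (∏ i, ∏ j ∈ Finset.Ioi i, (f j - f i)) ^ 2

def HERM : Prop := ∀ n : ℕ, 0 < n → ∀ G : Matrix (Fin n) (Fin n) ℝ, G.PosDef →
  ∃ c : Fin n → ℤ, c ≠ 0 ∧
    ∑ i, ∑ j, (c i : ℝ) * G i j * (c j : ℝ) ≤ n * G.det ^ ((1 : ℝ) / n)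

def SER1 : Prop := ∀ (B : ℝ) (μ : Measure ℝ), On B μ → Arith μ → ∀ r : ℝ, 0 < r →
  0 ≤ ∫ p : ℝ × ℝ, Real.log ((p.1 - p.2) ^ 2 + r ^ 2) ∂(μ.prod μ)

def SER2 : Prop := ∀ (B : ℝ) (μ : Measure ℝ), On B μ →
  (∀ r : ℝ, 0 < r → 0 ≤ ∫ p : ℝ × ℝ, Real.log ((p.1 - p.2) ^ 2 + r ^ 2) ∂(μ.prod μ)) →
  Eint μ ∧ 0 ≤ En μ

def SERRE : Prop := ∀ (B : ℝ) (μ : Measure ℝ), On B μ → Arith μ → Eint μ ∧ 0 ≤ En μ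

/-! ## Uniqueness -/

def MIXL : Prop := ∀ (B s : ℝ) (μ ν : Measure ℝ), 0 ≤ s → s ≤ 1 → On B μ → On B ν →
  On B (mix s μ ν) ∧
  (∀ f : ℝ → ℝ, Integrable f μ → Integrable f ν → Integrable f (mix s μ ν) ∧
    ∫ x, f x ∂(mix s μ ν) = (1 - s) * ∫ x, f x ∂μ + s * ∫ x, f x ∂ν) ∧
  (Arith μ → Arith ν → Arith (mix s μ ν)) ∧
  mean (mix s μ ν) = (1 - s) * mean μ + s * mean ν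

def STRICT : Prop := ∀ (B : ℝ) (μ ν : Measure ℝ), On B μ → On B ν → Eint μ → Eint ν →
  (μ.prod ν) {p : ℝ × ℝ | p.1 = p.2} = 0 →
  Integrable (fun p : ℝ × ℝ => Real.log |p.1 - p.2|) (μ.prod ν) →
  En μ + En ν - 2 * ∫ p : ℝ × ℝ, Real.log |p.1 - p.2| ∂(μ.prod ν) = 0 → μ = ν

def UNIQ : Prop := ∀ (B : ℝ) (μ ν : Measure ℝ), On B μ → On B ν → Eint μ → En μ = 0 →
  Eint ν → En ν = 0 → Eint (mix (1 / 2) μ ν) → En (mix (1 / 2) μ ν) = 0 → μ = ν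

/-! ## Smyth's inequality -/

def SMYTH : Prop := ∀ lam : ℝ, 0 ≤ lam → lam ≤ 6 →
  (∀ η : ℝ, 0 < η → ∃ F a, Cert lam η 2000 F a) → ∀ η : ℝ, 0 < η →
  ∃ F : Finset ℤ[X], ∀ p : ℤ[X], p.Monic → Irreducible p → 0 < p.natDegree → TotPos p →
    p ∉ F → lam - η ≤ mtr p

/-! ## Construction of totally positive integers -/

def LIPL : Prop := ∀ (c : ℝ) (ν : Measure ℝ), IsFiniteMeasure ν → 0 ≤ c → Lip c ν →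
  ∀ (α : ℂ) (ρ : ℝ), 0 < ρ →
  Integrable (fun x : ℝ => max 0 (Real.log (ρ / ‖(x : ℂ) - α‖))) ν ∧
  ∫ x : ℝ, max 0 (Real.log (ρ / ‖(x : ℂ) - α‖)) ∂ν ≤ 2 * c * ρ

def SMOO : Prop := ∀ (B ε : ℝ) (μ : Measure ℝ), 0 < B → On B μ → Eint μ → 0 < ε →
  ∃ (ν : Measure ℝ) (c : ℝ), 0 < c ∧ On (B + 1) ν ∧ Lip c ν ∧ mean ν ≤ mean μ + ε ∧
  ∀ α : ℂ, Integrable (fun x : ℝ => Real.log ‖(x : ℂ) - α‖) ν ∧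
    (Integrable (fun x : ℝ => Real.log ‖(x : ℂ) - α‖) μ → Upot μ α - ε ≤ Upot ν α)

def NICE : Prop := ∀ (B ε : ℝ) (μ : Measure ℝ), 12 ≤ B → On B μ → Arith μ → Eint μ → 0 < ε →
  ∃ (ν : Measure ℝ) (c : ℝ), 0 < c ∧ On (B + 1) ν ∧ Lip c ν ∧ Arith ν ∧ mean ν ≤ mean μ + ε

def QUANT : Prop := ∀ (B c : ℝ) (ν : Measure ℝ), 0 < B → On B ν → Lip c ν → ∀ D : ℕ, 0 < D →
  ∃ x : ℕ → ℝ, x 0 = 0 ∧ x D = B ∧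
    ∀ j < D, x j < x (j + 1) ∧ (ν (Set.Icc (x j) (x (j + 1)))).toReal = 1 / D

def BARY : Prop := ∀ (B c : ℝ) (ν : Measure ℝ), 0 < B → On B ν → Lip c ν → ∀ n : ℕ, 0 < n →
  ∃ x m : ℕ → ℝ, x 0 = 0 ∧ x n = B ∧ (∀ j < n, x j < m j ∧ m j < x (j + 1)) ∧
    ∑ j ∈ Finset.range n, m j = n * mean ν ∧
    ∀ t : ℝ, (∀ j < n, ¬ (x j < t ∧ t < x (j + 1))) →
      (n : ℝ) * Upot ν (t : ℂ) ≤ ∑ j ∈ Finset.range n, Real.log |t - m j|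

def CHEB : Prop := ∀ (b : ℝ) (m : ℕ) (P : ℝ[X]), 0 < m → P.Monic →
  ∃ (u : ℝ[X]) (y : ℕ → ℝ), u.Monic ∧ u.natDegree = m ∧
    (∀ k < m, ∃ z : ℤ, (P * u).coeff (P.natDegree + k) = 4 * z) ∧
    y 0 = b ∧ y m = b + 40 ∧ (∀ j < m, y j < y (j + 1)) ∧
    (∀ j ≤ m, (10 : ℝ) ^ m ≤ (-1) ^ (m - j) * u.eval (y j)) ∧
    (∀ t ≤ b, (10 : ℝ) ^ m ≤ (-1) ^ m * u.eval t) ∧
    |u.coeff (m - 1) + m * (b + 20)| ≤ 2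

def UNIM : Prop := ∀ (n : ℕ) (v : Fin (n + 1) → ℤ), (∀ d : ℤ, (∀ i, d ∣ v i) → IsUnit d) →
  ∃ U : Matrix (Fin (n + 1)) (Fin (n + 1)) ℤ, IsUnit U.det ∧ ∀ i, U i 0 = v i

def TRANS : Prop := ∀ (n : ℕ) (G : Matrix (Fin n) (Fin n) ℝ) (δ : ℝ), G.PosDef → 0 < δ →
  (∀ l : Fin n → ℤ, l ≠ 0 → δ ^ 2 ≤ ∑ i, ∑ j, (l i : ℝ) * G⁻¹ i j * (l j : ℝ)) →
  ∀ x : Fin n → ℝ, ∃ k : Fin n → ℤ,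
    ∑ i, ∑ j, (x i - k i) * G i j * (x j - k j) ≤ (n : ℝ) ^ 3 / (4 * δ ^ 2)

def LAT : Prop := ∀ (n : ℕ) (T : Finset ℝ) (w : ℝ → ℝ) (δ : ℝ), n ≤ T.card →
  (∀ τ ∈ T, 0 < w τ) → 0 < δ →
  (∀ (l : Fin n → ℤ) (lm : ℝ → ℝ), l ≠ 0 →
    (∀ k : Fin n, ∑ τ ∈ T, lm τ * τ ^ (k : ℕ) = l k) → δ ^ 2 ≤ ∑ τ ∈ T, (lm τ / w τ) ^ 2) →
  ∀ x : Fin n → ℝ, ∃ k : Fin n → ℤ,
    ∑ τ ∈ T, w τ ^ 2 * (∑ j, (x j - k j) * τ ^ (j : ℕ)) ^ 2 ≤ (n : ℝ) ^ 3 / (4 * δ ^ 2)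

/-- The Hankel-type matrix of the functional `l` twisted by `R`. -/
noncomputable def hmat {A : Type} [CommRing A] (n q : ℕ) (l : ℕ → ℤ) (R : A[X]) :
    Matrix (Fin q) (Fin q) A :=
  Matrix.of fun i j => ∑ k ∈ Finset.range n, (l k : A) * (X ^ ((i : ℕ) + (j : ℕ)) * R).coeff k

/-- Data of a minimal recurrence. -/
structure HData (n : ℕ) (l : ℕ → ℤ) (q : ℕ) (Q : ℤ[X]) : Prop where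
  one_le : 1 ≤ q
  two_le : 2 * q ≤ n + 1
  prim : Q.IsPrimitive
  deg : Q.natDegree ≤ q
  recur : ∀ j, j + q + 1 ≤ n → ∑ i ∈ Finset.range (q + 1), Q.coeff i * l (i + j) = 0
  nondeg : ∀ C : ℕ → ℚ,
    (∀ j, j + q ≤ n → ∑ i ∈ Finset.range q, C i * (l (i + j) : ℚ) = 0) → ∀ i < q, C i = 0

def HANKA : Prop := ∀ (n : ℕ) (l : ℕ → ℤ), (∃ k < n, l k ≠ 0) → ∃ q Q, HData n l q Q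

def HANKB : Prop := ∀ (n : ℕ) (l : ℕ → ℤ) (q : ℕ) (Q : ℤ[X]), HData n l q Q →
  ∃ N : ℤ, N ≠ 0 ∧ ∀ (A : Type) [CommRing A] (R : A[X]), R.Monic → R.natDegree = n + 1 - 2 * q →
    (Q.leadingCoeff : A) ^ (n + 1 - 2 * q) * (hmat n q l R).det =
      (N : A) * resultant R (Q.map (Int.castRingHom A)) (n + 1 - 2 * q) q

def HANKC : Prop := ∀ (q D : ℕ) (Q : ℤ[X]) (R : ℝ[X]), Q ≠ 0 → Q.natDegree ≤ q → R.Monic →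
  R.natDegree = D →
  |resultant R (Q.map (Int.castRingHom ℝ)) D q| =
    |(Q.leadingCoeff : ℝ)| ^ D * ((rts Q).map (fun α => ‖aeval α R‖)).prod

def HANKP : Prop := ∀ (q D : ℕ) (Q : ℤ[X]), Q.IsPrimitive → Q.natDegree ≤ q →
  (resultant (X ^ D + C (X : ℤ[X])) (Q.map (Int.castRingHom ℤ[X])) D q : ℤ[X]).IsPrimitive

def HANK : Prop := ∀ (n : ℕ) (l : ℕ → ℤ), (∃ k < n, l k ≠ 0) → ∃ (q : ℕ) (Q : ℤ[X]),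
  1 ≤ q ∧ 2 * q ≤ n + 1 ∧ Q ≠ 0 ∧ Q.natDegree ≤ q ∧
  ∀ R : ℝ[X], R.Monic → R.natDegree = n + 1 - 2 * q →
    |(Q.leadingCoeff : ℝ)| ^ (n + 1 - 2 * q) * ((rts Q).map (fun α => ‖aeval α R‖)).prod ≤
      |(hmat n q l R).det|

def BLKU : Prop := ∀ (B B' c : ℝ) (ν : Measure ℝ), 0 < B → 0 < c → B ≤ B' → On B ν → Lip c ν →
  ∃ C : ℝ, 0 ≤ C ∧ ∀ (D : ℕ), 0 < D → ∀ x z : ℕ → ℝ, x 0 = 0 → x D = B →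
    (∀ j < D, x j < x (j + 1) ∧ (ν (Set.Icc (x j) (x (j + 1)))).toReal = 1 / D) →
    (∀ j < D, z j ∈ Set.Icc (x j) (x (j + 1))) → ∀ t ∈ Set.Icc (0 : ℝ) B',
      ∏ j ∈ Finset.range D, |t - z j| ≤
        Real.exp (D * Upot ν (t : ℂ) + C * (1 + Real.log (D + 1)))

def BLK : Prop := ∀ (B B' c : ℝ) (ν : Measure ℝ), 0 < B → 0 < c → B ≤ B' → On B ν → Lip c ν →
  ∃ C : ℝ, 0 ≤ C ∧ ∀ (D : ℕ) (Z : Multiset ℂ), ∃ R : ℝ[X], R.Monic ∧ R.natDegree = D ∧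
    (∀ α ∈ Z, aeval α R ≠ 0) ∧
    (D : ℝ) * (Z.map (Upot ν)).sum ≤ (Z.map (fun α => Real.log ‖aeval α R‖)).sum ∧
    ∀ t ∈ Set.Icc (0 : ℝ) B',
      |R.eval t| ≤ Real.exp (D * Upot ν (t : ℂ) + C * (1 + Real.log (D + 1)))

def VUB : Prop := ∀ (B B' c : ℝ) (ν : Measure ℝ), 0 < B → 0 < c → B ≤ B' → On B ν → Lip c ν →
  Eint ν → 0 ≤ En ν → ∃ C : ℝ, 0 ≤ C ∧ ∀ (q : ℕ) (t : Fin q → ℝ),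
    (∀ i, t i ∈ Set.Icc (0 : ℝ) B') →
    (∏ i, ∏ j ∈ Finset.Ioi i, (t j - t i)) ^ 2 ≤
      Real.exp (2 * q * ∑ i, Upot ν (t i : ℂ) + C * q * (1 + Real.log (q + 1)))

def CORE : Prop := ∀ (B B' c : ℝ) (ν : Measure ℝ), 0 < B → 0 < c → B ≤ B' → On B ν → Lip c ν →
  Arith ν → ∀ s : ℝ, 0 < s → ∃ n0 : ℕ, ∀ n : ℕ, n0 ≤ n → ∀ T : Finset ℝ,
  (∀ τ ∈ T, τ ∈ Set.Icc (0 : ℝ) B') → (T.card : ℝ) ≤ 2 * n + 2 →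
  ∀ (l : ℕ → ℤ) (lm : ℝ → ℝ), (∃ k < n, l k ≠ 0) →
  (∀ k < n, ∑ τ ∈ T, lm τ * τ ^ k = l k) →
  ∃ τ ∈ T, Real.exp (-(s * n)) ≤ |lm τ| * Real.exp (n * Upot ν (τ : ℂ))

def EISEN : Prop := ∀ p : ℤ[X], p.Monic → 0 < p.natDegree →
  (∀ k < p.natDegree, 2 ∣ p.coeff k) → ¬ (4 ∣ p.coeff 0) → Irreducible p

def SGN : Prop := ∀ (d : ℕ) (p : ℤ[X]) (z : ℕ → ℝ), p.Monic → p.natDegree = d →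
  (∀ j < d, z j < z (j + 1)) → (∀ j ≤ d, 0 < (-1) ^ (d - j) * ev p (z j)) → 0 ≤ z 0 → TotPos p

def SMC : Prop := ∀ (B c : ℝ) (ν : Measure ℝ), 0 < B → 0 < c → On B ν → Lip c ν → Arith ν →
  ∀ κ : ℝ, 0 < κ → ∃ n0 : ℕ, ∀ n m : ℕ, n0 ≤ n → κ * n ≤ m → 0 < m → m ≤ n + 1 →
  ∃ p : ℤ[X], p.Monic ∧ Irreducible p ∧ p.natDegree = n + m ∧ TotPos p ∧
    |(p.coeff (n + m - 1) : ℝ) + (n * mean ν + m * (B + 20))| ≤ 2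

def SMITH : Prop := ∀ (B c : ℝ) (ν : Measure ℝ), 0 < B → 0 < c → On B ν → Lip c ν → Arith ν →
  ∀ (t : ℝ) (N : ℕ), mean ν < t → ∃ p : ℤ[X], p.Monic ∧ Irreducible p ∧ N ≤ p.natDegree ∧
    TotPos p ∧ mtr p ≤ t

/-! ## The constant -/

def LIMI : Prop := ∀ lam : ℝ,
  (∀ η : ℝ, 0 < η → ∃ F : Finset ℤ[X], ∀ p : ℤ[X], p.Monic → Irreducible p → 0 < p.natDegree →
    TotPos p → p ∉ F → lam - η ≤ mtr p) →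
  (∀ (t : ℝ) (N : ℕ), lam < t → ∃ p : ℤ[X], p.Monic ∧ Irreducible p ∧ N ≤ p.natDegree ∧
    TotPos p ∧ mtr p ≤ t) → lamSSS = lam

end Pool.Agent.W401.SSS
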